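import Mathlib

/-!
# Proper and unit totally bounded tolerance orders are different classes

The class of the orders with a unit totally bounded tolerance representation is a proper subclass of
the class of the orders with a proper totally bounded tolerance representation: an order with ten
elements separates them.
-/

set_option autoImplicit false

namespace Pool.Agent.Results.MP_1409ae_co.ProperNotUnit

/-- A bounded bitolerance representation of the relation `lt`: closed intervals `[L v, R v]` and
tolerant points `p v`, `q v`. -/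
structure Rep (V : Type) (lt : V → V → Prop) where
  /-- left ends -/
  L : V → ℝ
  /-- right ends -/
  R : V → ℝ
  /-- left tolerant points -/
  p : V → ℝ
  /-- right tolerant points -/
  q : V → ℝ
  L_lt_p : ∀ v, L v < p v
  p_le_R : ∀ v, p v ≤ R v
  L_le_q : ∀ v, L v ≤ q v
  q_lt_R : ∀ v, q v < R v
  spec : ∀ x y, x ≠ y → (lt x y ↔ (R x < p y ∧ q x < L y))

variable {V : Type} {lt : V → V → Prop}

/-- The two tolerances of every element are equal. -/
def Rep.Tolerance (ρ : Rep V lt) : Prop := ∀ v, ρ.p v - ρ.L v = ρ.R v - ρ.q v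

/-- The left tolerant point is never to the right of the right one. -/
def Rep.TotallyBounded (ρ : Rep V lt) : Prop := ∀ v, ρ.p v ≤ ρ.q v

/-- All intervals have the same length. -/
def Rep.Unit (ρ : Rep V lt) : Prop := ∀ v w, ρ.R v - ρ.L v = ρ.R w - ρ.L w

/-- No interval is properly contained in another one. -/
def Rep.Proper (ρ : Rep V lt) : Prop :=
  ∀ v w, ¬ Set.Icc (ρ.L v) (ρ.R v) ⊂ Set.Icc (ρ.L w) (ρ.R w)

/-- The class `𝒰`. -/
def InU (V : Type) (lt : V → V → Prop) : Prop :=
  ∃ ρ : Rep V lt, ρ.Unit ∧ ρ.Tolerance ∧ ρ.TotallyBounded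

/-- The class `𝒫`. -/
def InP (V : Type) (lt : V → V → Prop) : Prop :=
  ∃ ρ : Rep V lt, ρ.Proper ∧ ρ.Tolerance ∧ ρ.TotallyBounded

/-- The elements above `x` in the example. -/
def up : Fin 10 → Finset (Fin 10) :=
  ![{3, 4, 5, 6, 7, 8, 9}, {5, 7, 8, 9}, {6, 8, 9}, {4, 5, 6, 7, 8, 9}, {7, 8, 9}, {8, 9},
    ∅, ∅, {9}, ∅]

/-- The order of the example. -/
def rel (x y : Fin 10) : Prop := y ∈ up x

instance (x y : Fin 10) : Decidable (rel x y) := inferInstanceAs (Decidable (y ∈ up x))

theorem rel_strict : IsStrictOrder (Fin 10) rel where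
  irrefl := by decide
  trans := by decide

/-- Left ends of the proper representation. -/
def exL : Fin 10 → ℤ := ![0, 103, 102, 101, 204, 305, 327, 306, 388, 509]

/-- Right ends of the proper representation. -/
def exR : Fin 10 → ℤ := ![160, 343, 322, 261, 364, 425, 587, 586, 588, 709]

/-- Tolerances of the proper representation. -/
def exT : Fin 10 → ℤ := ![70, 50, 10, 70, 70, 50, 10, 70, 90, 90]

theorem ex_spec : ∀ x y : Fin 10, x ≠ y →
    (rel x y ↔ (exR x < exL y + exT y ∧ exR x - exT x < exL y)) := by decide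

theorem ex_bounds : ∀ x : Fin 10, 0 < exT x ∧ exT x + exT x ≤ exR x - exL x := by decide

theorem ex_proper : ∀ x y : Fin 10, exL y ≤ exL x → exR x ≤ exR y → x = y := by decide

theorem inP : InP (Fin 10) rel := by
  have hb : ∀ x : Fin 10, (0 : ℝ) < exT x ∧ (exT x : ℝ) + exT x ≤ exR x - exL x := by
    intro x
    have h := ex_bounds x
    exact ⟨by exact_mod_cast h.1, by exact_mod_cast h.2⟩
  refine ⟨⟨fun v => exL v, fun v => exR v, fun v => exL v + exT v, fun v => exR v - exT v,
    ?_, ?_, ?_, ?_, ?_⟩, ?_, ?_, ?_⟩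
  · intro v
    have := hb v
    linarith
  · intro v
    have := hb v
    linarith
  · intro v
    have := hb v
    linarith
  · intro v
    have := hb v
    linarith
  · intro x y hxy
    rw [ex_spec x y hxy]
    constructor
    · rintro ⟨h1, h2⟩
      exact ⟨by exact_mod_cast h1, by exact_mod_cast h2⟩
    · rintro ⟨h1, h2⟩
      exact ⟨by exact_mod_cast h1, by exact_mod_cast h2⟩
  · intro v w hs
    have hv := hb v
    have hle : (exL v : ℝ) ≤ exR v := by linarith
    have h1 : (exL w : ℝ) ≤ exL v := (hs.1 (Set.left_mem_Icc.2 hle)).1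
    have h2 : (exR v : ℝ) ≤ exR w := (hs.1 (Set.right_mem_Icc.2 hle)).2
    have h3 : v = w := ex_proper v w (by exact_mod_cast h1) (by exact_mod_cast h2)
    subst h3
    exact hs.2 subset_rfl
  · intro v
    dsimp only
    ring
  · intro v
    have := hb v
    dsimp only
    linarith

/-- Positions and differences `length - tolerance` of a unit representation. -/
theorem facts {W : Type} [Nonempty W] {r : W → W → Prop} (h : InU W r) :
    ∃ (a s : W → ℝ) (l : ℝ), (∀ v, l ≤ 2 * s v) ∧ (∀ v, s v < l) ∧
      (∀ x y, x ≠ y → r x y → s x < a y - a x ∧ s y < a y - a x) ∧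
      (∀ x y, x ≠ y → ¬ r x y → ¬ r y x →
        (a x - a y ≤ s x ∧ a y - a x ≤ s x) ∨ (a x - a y ≤ s y ∧ a y - a x ≤ s y)) := by
  obtain ⟨ρ, hu, ht, hb⟩ := h
  obtain ⟨w⟩ := ‹Nonempty W›
  have hR : ∀ v, ρ.R v = ρ.L v + (ρ.R w - ρ.L w) := fun v => by have := hu v w; linarith
  refine ⟨ρ.L, fun v => ρ.q v - ρ.L v, ρ.R w - ρ.L w, ?_, ?_, ?_, ?_⟩
  · intro v
    have h1 := hR v
    have h2 := ht v
    have h3 := hb v
    dsimp only
    linarith
  · intro v
    have h1 := hR v
    have h2 := ρ.q_lt_R v
    dsimp only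
    linarith
  · intro x y hxy h
    obtain ⟨h1, h2⟩ := (ρ.spec x y hxy).1 h
    have h3 := hR x
    have h4 := hR y
    have h5 := ht x
    have h6 := ht y
    dsimp only
    constructor <;> linarith
  · intro x y hxy h h'
    have h1 : ¬ (ρ.R x < ρ.p y ∧ ρ.q x < ρ.L y) := fun k => h ((ρ.spec x y hxy).2 k)
    have h2 : ¬ (ρ.R y < ρ.p x ∧ ρ.q y < ρ.L x) := fun k => h' ((ρ.spec y x hxy.symm).2 k)
    have h3 := hR x
    have h4 := hR y
    have h5 := ht x
    have h6 := ht y
    dsimp only
    rcases le_total (ρ.q x - ρ.L x) (ρ.q y - ρ.L y) with hc | hc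
    · right
      constructor
      · by_contra hlt
        exact h2 ⟨by linarith, by linarith⟩
      · by_contra hlt
        exact h1 ⟨by linarith, by linarith⟩
    · left
      constructor
      · by_contra hlt
        exact h2 ⟨by linarith, by linarith⟩
      · by_contra hlt
        exact h1 ⟨by linarith, by linarith⟩

theorem not_inU : ¬ InU (Fin 10) rel := by
  intro h
  obtain ⟨a, s, l, lo, hi, c, d⟩ := facts h
  have c03 := c 0 3 (by decide) (by decide)
  have c34 := c 3 4 (by decide) (by decide)
  have c47 := c 4 7 (by decide) (by decide)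
  have c26 := c 2 6 (by decide) (by decide)
  have c17 := c 1 7 (by decide) (by decide)
  have c15 := c 1 5 (by decide) (by decide)
  have c58 := c 5 8 (by decide) (by decide)
  have c89 := c 8 9 (by decide) (by decide)
  have d27 := d 2 7 (by decide) (by decide) (by decide)
  have d16 := d 1 6 (by decide) (by decide) (by decide)
  have d01 := d 0 1 (by decide) (by decide) (by decide)
  have d79 := d 7 9 (by decide) (by decide) (by decide)
  have d02 := d 0 2 (by decide) (by decide) (by decide)
  have lo0 := lo 0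
  have lo3 := lo 3
  have lo4 := lo 4
  have lo5 := lo 5
  have lo8 := lo 8
  have hi2 := hi 2
  have hi6 := hi 6
  have hi7 := hi 7
  clear c d lo hi
  rcases d27 with d27 | d27
  · clear d02
    rcases d16 with d16 | d16
    · linarith [d16.2, d27.2, c26.1, c17.1]
    · rcases d01 with d01 | d01
      · linarith [d16.2, d27.2, c03.1, c34.1, c26.1, c47.1, d01.2]
      · rcases d79 with d79 | d79
        · linarith [d16.2, d27.2, c03.1, c34.1, c15.1, c26.1, c58.1, c89.1, hi6, lo0, lo3, lo5,
            d79.2, lo8, d01.2, c47.2]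
        · linarith [d16.2, d27.2, c03.1, c34.1, c15.1, c26.1, c47.1, c58.1, hi6, lo0, lo3, lo4, lo5,
            d79.2, d01.2, c89.2]
  · rcases d02 with d02 | d02
    · linarith [d27.2, c03.1, c34.1, c47.1, lo3, d02.2, hi7]
    · linarith [d27.2, c03.1, c34.1, lo0, d02.2, lo3, hi2, c47.2]

/-- Some strict partial order on ten elements is in `𝒫` but not in `𝒰`, so `𝒫 ≠ 𝒰`. -/
theorem result :
    ∃ lt : Fin 10 → Fin 10 → Prop, IsStrictOrder (Fin 10) lt ∧ InP (Fin 10) lt ∧
      ¬ InU (Fin 10) lt :=
  ⟨rel, rel_strict, inP, not_inU⟩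

end Pool.Agent.Results.MP_1409ae_co.ProperNotUnit
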